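import Pool.Agent.W387.R.Stm

/-! The height function and the map to the trivial HNN extension. -/

set_option autoImplicit false

namespace Pool.Agent.W585.RA

open Pool.Agent.W387 Pool.Agent.W387.RA

theorem abs_tc {Γ : Type} [Group Γ] (c d zc zd : Γ) (h1 : d * c⁻¹ * zd * zc⁻¹ = 1)
    (h2 : d * zc⁻¹ * zd * c⁻¹ = 1) :
    Commute (c * zc⁻¹) (d * c⁻¹) ∧ d * zd⁻¹ = (d * c⁻¹) * (d * c⁻¹) * (c * zc⁻¹) := by
  have e1 : zd = c * d⁻¹ * zc := by
    have : d * c⁻¹ * zd = zc := by rwa [mul_inv_eq_one] at h1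
    rw [← this]; group
  have e2 : zd = zc * d⁻¹ * c := by
    have : d * zc⁻¹ * zd = c := by rwa [mul_inv_eq_one] at h2
    rw [← this]; group
  have e3 : c * d⁻¹ * zc = zc * d⁻¹ * c := by rw [← e1, e2]
  have e4 : zc⁻¹ * (d * c⁻¹) = c⁻¹ * d * zc⁻¹ := by
    have : (c * d⁻¹ * zc)⁻¹ = (zc * d⁻¹ * c)⁻¹ := by rw [e3]
    calc zc⁻¹ * (d * c⁻¹) = (c * d⁻¹ * zc)⁻¹ := by group
      _ = (zc * d⁻¹ * c)⁻¹ := this
      _ = c⁻¹ * d * zc⁻¹ := by group
  constructor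
  · change (c * zc⁻¹) * (d * c⁻¹) = (d * c⁻¹) * (c * zc⁻¹)
    rw [mul_assoc, e4]
    group
  · rw [e1]
    have : d * (c * d⁻¹ * zc)⁻¹ = d * (zc⁻¹ * (d * c⁻¹)) := by group
    rw [this, e4]
    group

theorem absF2 {Γ : Type} [Group Γ] (p q r s zp zq zr zs : Γ) (hp : p = 1)
    (h : Γ →* Multiplicative ℤ)
    (hq : h q = 1) (hr : h r = 1) (hs : h s = 1) (hzq : h zq = Multiplicative.ofAdd 1)
    (h1 : q * p⁻¹ * zq * zp⁻¹ = 1) (h2 : q * zp⁻¹ * zq * p⁻¹ = 1)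
    (h3 : r * q⁻¹ * zr * zq⁻¹ = 1) (h4 : r * zq⁻¹ * zr * q⁻¹ = 1)
    (h5 : s * r⁻¹ * zs * zr⁻¹ = 1) (h6 : s * zr⁻¹ * zs * r⁻¹ = 1)
    (F : Subgroup Γ) (hqF : q ∈ F) (hrF : r ∈ F) (hsF : s ∈ F)
    (hF : ∀ K : Subgroup Γ, p ∈ K → q ∈ K → r ∈ K → s ∈ K → F ≤ K)
    (S : Set Γ) (hS : ∀ x ∈ S, x = p ∨ x = q ∨ x = r ∨ x = s ∨ x = zp ∨ x = zq ∨ x = zr ∨ x = zs)
    (c : Γ) (hc : c ∈ Subgroup.closure S) (hhc : h c = 1) : c ∈ F := by
  obtain ⟨c1, t1⟩ := abs_tc p q zp zq h1 h2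
  obtain ⟨c2, t2⟩ := abs_tc q r zq zr h3 h4
  obtain ⟨c3, t3⟩ := abs_tc r s zr zs h5 h6
  obtain ⟨t, ht⟩ : ∃ t, t = q * zq⁻¹ := ⟨_, rfl⟩
  obtain ⟨X2, hX2⟩ : ∃ X2, X2 = r * q⁻¹ := ⟨_, rfl⟩
  obtain ⟨X3, hX3⟩ : ∃ X3, X3 = s * r⁻¹ := ⟨_, rfl⟩
  rw [hp] at c1 t1
  simp only [one_mul, inv_one, mul_one] at c1 t1
  rw [← ht] at t1
  rw [← ht, ← hX2] at c2 t2
  rw [t2, ← hX3] at c3 t3
  -- t commutes with q
  have k1 : Commute t q := by
    rw [t1]
    exact (((Commute.refl q).mul_left (Commute.refl q)).mul_left c1)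
  have k3 : t * X3 * t⁻¹ = X2⁻¹ * X2⁻¹ * X3 * (X2 * X2) := by
    have e1 : (X2 * X2 * t) * X3 = X3 * (X2 * X2 * t) := c3
    have e2 : t * X3 = X2⁻¹ * X2⁻¹ * (X3 * (X2 * X2 * t)) := by
      rw [← e1]; group
    rw [e2]; group
  have k3' : t⁻¹ * X3 * t = X2 * X2 * X3 * (X2⁻¹ * X2⁻¹) := by
    have e0 : X2 * X2 * t = t * (X2 * X2) := (c2.mul_right c2).symm
    have e1 : (X2 * X2 * t) * X3 = X3 * (X2 * X2 * t) := c3
    rw [e0] at e1
    have e2 : X3 * t = t * (X2 * X2) * X3 * (X2⁻¹ * X2⁻¹) := by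
      rw [e1]; group
    rw [mul_assoc, e2]; group
  have hX2F : X2 ∈ F := by rw [hX2]; exact F.mul_mem hrF (F.inv_mem hqF)
  have hX3F : X3 ∈ F := by rw [hX3]; exact F.mul_mem hsF (F.inv_mem hrF)
  have r1 : r = X2 * q := by rw [hX2]; group
  have s1 : s = X3 * r := by rw [hX3]; group
  have a1 : ∀ f ∈ F, t * f * t⁻¹ ∈ F := by
    intro f hf
    have : F ≤ F.comap (MulAut.conj t).toMonoidHom := by
      have hqc : q ∈ F.comap (MulAut.conj t).toMonoidHom := by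
        change t * q * t⁻¹ ∈ F
        rw [k1.eq, mul_inv_cancel_right]; exact hqF
      have hX2c : X2 ∈ F.comap (MulAut.conj t).toMonoidHom := by
        change t * X2 * t⁻¹ ∈ F
        rw [c2.eq, mul_inv_cancel_right]; exact hX2F
      have hX3c : X3 ∈ F.comap (MulAut.conj t).toMonoidHom := by
        change t * X3 * t⁻¹ ∈ F
        rw [k3]
        exact F.mul_mem (F.mul_mem (F.mul_mem (F.inv_mem hX2F) (F.inv_mem hX2F)) hX3F)
          (F.mul_mem hX2F hX2F)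
      have hrc : r ∈ F.comap (MulAut.conj t).toMonoidHom := by
        rw [r1]; exact Subgroup.mul_mem _ hX2c hqc
      have hsc : s ∈ F.comap (MulAut.conj t).toMonoidHom := by
        rw [s1]; exact Subgroup.mul_mem _ hX3c hrc
      exact hF _ (by rw [hp]; exact Subgroup.one_mem _) hqc hrc hsc
    exact this hf
  have a2 : ∀ f ∈ F, t⁻¹ * f * t ∈ F := by
    intro f hf
    have : F ≤ F.comap (MulAut.conj t⁻¹).toMonoidHom := by
      have hconj : ∀ x : Γ, t⁻¹ * x * t ∈ F → x ∈ F.comap (MulAut.conj t⁻¹).toMonoidHom := by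
        intro x hx
        change t⁻¹ * x * t⁻¹⁻¹ ∈ F
        rwa [inv_inv]
      have hqc : q ∈ F.comap (MulAut.conj t⁻¹).toMonoidHom := by
        apply hconj
        rw [mul_assoc, ← k1.eq, inv_mul_cancel_left]; exact hqF
      have hX2c : X2 ∈ F.comap (MulAut.conj t⁻¹).toMonoidHom := by
        apply hconj
        rw [mul_assoc, ← c2.eq, inv_mul_cancel_left]; exact hX2F
      have hX3c : X3 ∈ F.comap (MulAut.conj t⁻¹).toMonoidHom := by
        apply hconj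
        rw [k3']
        exact F.mul_mem (F.mul_mem (F.mul_mem hX2F hX2F) hX3F)
          (F.mul_mem (F.inv_mem hX2F) (F.inv_mem hX2F))
      have hrc : r ∈ F.comap (MulAut.conj t⁻¹).toMonoidHom := by
        rw [r1]; exact Subgroup.mul_mem _ hX2c hqc
      have hsc : s ∈ F.comap (MulAut.conj t⁻¹).toMonoidHom := by
        rw [s1]; exact Subgroup.mul_mem _ hX3c hrc
      exact hF _ (by rw [hp]; exact Subgroup.one_mem _) hqc hrc hsc
    have h7 := this hf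
    change t⁻¹ * f * t⁻¹⁻¹ ∈ F at h7
    rwa [inv_inv] at h7
  have hnat : ∀ n : ℕ, ∀ f ∈ F, t ^ n * f * (t ^ n)⁻¹ ∈ F ∧ (t ^ n)⁻¹ * f * t ^ n ∈ F := by
    intro n
    induction n with
    | zero => intro f hf; simpa using hf
    | succ n ih =>
      intro f hf
      constructor
      · have := (ih _ (a1 f hf)).1
        rw [pow_succ]
        have e : t ^ n * t * f * (t ^ n * t)⁻¹ = t ^ n * (t * f * t⁻¹) * (t ^ n)⁻¹ := by group
        rw [e]; exact this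
      · have := (ih _ (a2 f hf)).2
        rw [pow_succ']
        have e : (t * t ^ n)⁻¹ * f * (t * t ^ n) = (t ^ n)⁻¹ * (t⁻¹ * f * t) * t ^ n := by group
        rw [e]; exact this
  have hint : ∀ k : ℤ, ∀ f ∈ F, t ^ k * f * (t ^ k)⁻¹ ∈ F := by
    intro k f hf
    obtain ⟨n, rfl | rfl⟩ := k.eq_nat_or_neg
    · rw [zpow_natCast]; exact (hnat n f hf).1
    · rw [zpow_neg, inv_inv, zpow_natCast]; exact (hnat n f hf).2
  -- decomposition
  have hdec : ∃ k : ℤ, ∃ f ∈ F, c = f * t ^ k := by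
    clear hhc
    induction hc using Subgroup.closure_induction with
    | mem x hx =>
      have hinF : ∀ f ∈ F, ∃ k : ℤ, ∃ f' ∈ F, t⁻¹ * f = f' * t ^ k := by
        intro f hf
        refine ⟨-1, t⁻¹ * f * t, a2 f hf, ?_⟩
        rw [zpow_neg_one]; group
      have ezq : zq = t⁻¹ * q := by rw [ht]; group
      have ezp : zp = t⁻¹ * (q * q) := by
        rw [t1]; group
      have ezr : zr = t⁻¹ * (X2⁻¹ * X2⁻¹ * r) := by
        have : zr = (X2 * X2 * t)⁻¹ * r := by rw [← t2]; group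
        rw [this]; group
      have ezs : zs = t⁻¹ * (X2⁻¹ * X2⁻¹ * (X3⁻¹ * X3⁻¹) * s) := by
        have : zs = (X3 * X3 * (X2 * X2 * t))⁻¹ * s := by rw [← t3]; group
        rw [this]; group
      rcases hS x hx with rfl | rfl | rfl | rfl | rfl | rfl | rfl | rfl
      · exact ⟨0, 1, F.one_mem, by rw [hp, zpow_zero, mul_one]⟩
      · exact ⟨0, _, hqF, by rw [zpow_zero, mul_one]⟩
      · exact ⟨0, _, hrF, by rw [zpow_zero, mul_one]⟩
      · exact ⟨0, _, hsF, by rw [zpow_zero, mul_one]⟩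
      · rw [ezp]; exact hinF _ (F.mul_mem hqF hqF)
      · rw [ezq]; exact hinF _ hqF
      · rw [ezr]; exact hinF _ (F.mul_mem (F.mul_mem (F.inv_mem hX2F) (F.inv_mem hX2F)) hrF)
      · rw [ezs]
        exact hinF _ (F.mul_mem (F.mul_mem (F.mul_mem (F.inv_mem hX2F) (F.inv_mem hX2F))
          (F.mul_mem (F.inv_mem hX3F) (F.inv_mem hX3F))) hsF)
    | one => exact ⟨0, 1, F.one_mem, by simp⟩
    | mul x y _ _ hx hy =>
      obtain ⟨k, f, hf, rfl⟩ := hx
      obtain ⟨l, g, hg, rfl⟩ := hy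
      refine ⟨k + l, f * (t ^ k * g * (t ^ k)⁻¹), F.mul_mem hf (hint k g hg), ?_⟩
      rw [zpow_add]; group
    | inv x _ hx =>
      obtain ⟨k, f, hf, rfl⟩ := hx
      refine ⟨-k, t ^ (-k) * f⁻¹ * (t ^ (-k))⁻¹, hint (-k) _ (F.inv_mem hf), ?_⟩
      group
  obtain ⟨k, f, hf, rfl⟩ := hdec
  have hhF : ∀ f ∈ F, h f = 1 := by
    intro f hf
    have := hF h.ker (by rw [hp]; exact Subgroup.one_mem _) (MonoidHom.mem_ker.2 hq)
      (MonoidHom.mem_ker.2 hr) (MonoidHom.mem_ker.2 hs) hf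
    exact MonoidHom.mem_ker.1 this
  have hht : h t = Multiplicative.ofAdd (-1) := by
    rw [ht, map_mul, map_inv, hq, hzq, one_mul]; rfl
  rw [map_mul, hhF f hf, one_mul, map_zpow, hht, ← ofAdd_zsmul] at hhc
  have hk : k = 0 := by
    have h8 : k • (-1 : ℤ) = 0 := hhc
    rw [smul_eq_mul] at h8
    omega
  rw [hk, zpow_zero, mul_one]
  exact hf

/-- the degree of a letter -/
def dg (e : Lt) : ℤ := if e.val < 32 then 0 else 1

theorem dg_sqs : ∀ t ∈ sqs, dg t.1 - dg t.2.1 + dg t.2.2.1 - dg t.2.2.2 = 0 := by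
  intro t ht
  simp only [sqs, List.mem_cons, List.not_mem_nil, or_false] at ht
  repeat' (rcases ht with rfl | ht)
  all_goals rfl

theorem sqs_cases : ∀ t ∈ sqs, (t.1.val < 32 ∧ t.2.1.val < 32 ∧ t.2.2.1.val < 32 ∧
    t.2.2.2.val < 32) ∨ (isY t.1 = true ∧ isY t.2.1 = true ∧ isY t.2.2.1 = true ∧
      isY t.2.2.2 = true) := by
  intro t ht
  simp only [sqs, List.mem_cons, List.not_mem_nil, or_false] at ht
  repeat' (rcases ht with rfl | ht)
  all_goals decide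

theorem lift_rels {K : Type} [Group K] (v : Lt → K) (h3 : v 3 = 1)
    (hs : ∀ t ∈ sqs, v t.1 * (v t.2.1)⁻¹ * v t.2.2.1 * (v t.2.2.2)⁻¹ = 1) :
    ∀ r ∈ (↑relF : Set (FreeGroup Lt)), FreeGroup.lift v r = 1 := by
  intro r hr
  rw [Finset.mem_coe, relF, Finset.mem_insert, List.mem_toFinset, List.mem_map] at hr
  rcases hr with rfl | ⟨t, ht, rfl⟩
  · rw [FreeGroup.lift_apply_of]; exact h3
  · simp only [sqRel, map_mul, map_inv, FreeGroup.lift_apply_of]
    exact hs t ht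

theorem gl_sq (t : Lt × Lt × Lt × Lt) (ht : t ∈ sqs) :
    gl t.1 * (gl t.2.1)⁻¹ * gl t.2.2.1 * (gl t.2.2.2)⁻¹ = 1 := by
  have : pg relF (sqRel t) = 1 := by
    apply PresentedGroup.one_of_mem
    rw [Finset.mem_coe, relF, Finset.mem_insert, List.mem_toFinset, List.mem_map]
    exact Or.inr ⟨t, ht, rfl⟩
  simp only [sqRel, map_mul, map_inv] at this
  exact this

theorem gl_3 : gl 3 = 1 := by
  apply PresentedGroup.one_of_mem
  rw [Finset.mem_coe, relF, Finset.mem_insert]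
  exact Or.inl rfl

theorem mainF2 : StmF2 := by
  obtain ⟨v, hv⟩ : ∃ v : Lt → Multiplicative ℤ, v = fun e => Multiplicative.ofAdd (dg e) := ⟨_, rfl⟩
  have hl : ∀ r ∈ (↑relF : Set (FreeGroup Lt)), FreeGroup.lift v r = 1 := by
    apply lift_rels
    · rw [hv]; rfl
    · intro t ht
      have := dg_sqs t ht
      rw [hv]
      change Multiplicative.ofAdd (dg t.1 - dg t.2.1 + dg t.2.2.1 - dg t.2.2.2) = 1
      rw [this]; rfl
  have hval : ∀ e : Lt, PresentedGroup.toGroup hl (gl e) =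
      if e.val < 32 then 1 else Multiplicative.ofAdd 1 := by
    intro e
    have : PresentedGroup.toGroup hl (gl e) = v e := PresentedGroup.toGroup.of hl
    rw [this, hv]
    simp only [dg]
    split_ifs <;> rfl
  refine ⟨PresentedGroup.toGroup hl, hval, ?_⟩
  intro c hc hh
  refine absF2 (gl 3) (gl 13) (gl 19) (gl 29) (gl 32) (gl 33) (gl 34) (gl 35) gl_3
    (PresentedGroup.toGroup hl) (by rw [hval]; rfl) (by rw [hval]; rfl) (by rw [hval]; rfl)
    (by rw [hval]; rfl)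
    (gl_sq (13, 3, 33, 32) (by decide)) (gl_sq (13, 32, 33, 3) (by decide))
    (gl_sq (19, 13, 34, 33) (by decide)) (gl_sq (19, 33, 34, 13) (by decide))
    (gl_sq (29, 19, 35, 34) (by decide)) (gl_sq (29, 34, 35, 19) (by decide))
    F1 (Subgroup.subset_closure ⟨1, rfl⟩) (Subgroup.subset_closure ⟨2, rfl⟩)
    (Subgroup.subset_closure ⟨3, rfl⟩) ?_ _ ?_ c hc hh
  · intro K hp hq hr hs
    rw [F1, Subgroup.closure_le]
    rintro _ ⟨c, rfl⟩
    fin_cases c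
    · exact hp
    · exact hq
    · exact hr
    · exact hs
  · rintro _ ⟨e, he, rfl⟩
    have : ∀ e : Lt, isY e = true → e = 3 ∨ e = 13 ∨ e = 19 ∨ e = 29 ∨ e = 32 ∨ e = 33 ∨ e = 34 ∨
        e = 35 := by decide
    rcases this e he with rfl | rfl | rfl | rfl | rfl | rfl | rfl | rfl <;> simp

theorem abs_comm {K : Type} [Group K] (a b c d T : K) (i j k l : ℤ)
    (hb : Commute b T) (hc : Commute c T) (hd : Commute d T) (h : a * b⁻¹ * c * d⁻¹ = 1)
    (hijkl : i - j + k - l = 0) :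
    (a * T ^ i) * (b * T ^ j)⁻¹ * (c * T ^ k) * (d * T ^ l)⁻¹ = 1 := by
  have hb' : Commute b⁻¹ T := hb.inv_left
  have hd' : Commute d⁻¹ T := hd.inv_left
  have e1 : (b * T ^ j)⁻¹ = b⁻¹ * T ^ (-j) := by
    rw [mul_inv_rev, ← zpow_neg, (hb'.zpow_right (-j)).eq]
  have e2 : (d * T ^ l)⁻¹ = d⁻¹ * T ^ (-l) := by
    rw [mul_inv_rev, ← zpow_neg, (hd'.zpow_right (-l)).eq]
  rw [e1, e2]
  have key : ∀ (x y : K) (m n : ℤ), Commute y T → (x * T ^ m) * (y * T ^ n) = (x * y) * T ^ (m + n) := by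
    intro x y m n hy
    rw [mul_assoc, ← mul_assoc (T ^ m) y, ← (hy.zpow_right m).eq, zpow_add]
    simp only [mul_assoc]
  rw [key _ _ _ _ hb', key _ _ _ _ hc, key _ _ _ _ hd', h, one_mul]
  have : i + -j + k + -l = 0 := by omega
  rw [this, zpow_zero]

theorem mainF4 : StmF4 := by
  obtain ⟨v, hv⟩ : ∃ v : Lt → TH C1, v = fun e => thB C1 (gl e) * thT C1 ^ (dg e) := ⟨_, rfl⟩
  have hl : ∀ r ∈ (↑relF : Set (FreeGroup Lt)), FreeGroup.lift v r = 1 := by
    apply lift_rels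
    · rw [hv]
      change thB C1 (gl 3) * thT C1 ^ (0 : ℤ) = 1
      rw [gl_3, map_one, zpow_zero, mul_one]
    · intro t ht
      have hsq : thB C1 (gl t.1) * (thB C1 (gl t.2.1))⁻¹ * thB C1 (gl t.2.2.1) *
          (thB C1 (gl t.2.2.2))⁻¹ = 1 := by
        rw [← map_inv, ← map_inv, ← map_mul, ← map_mul, ← map_mul, gl_sq t ht, map_one]
      rw [hv]
      rcases sqs_cases t ht with ⟨h1, h2, h3, h4⟩ | ⟨h1, h2, h3, h4⟩
      · simp only [dg, if_pos h1, if_pos h2, if_pos h3, if_pos h4, zpow_zero, mul_one]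
        exact hsq
      · have hcm : ∀ e : Lt, isY e = true → Commute (thB C1 (gl e)) (thT C1) := fun e he =>
          thB_comm C1 _ (Subgroup.subset_closure ⟨e, he, rfl⟩)
        exact abs_comm _ _ _ _ _ _ _ _ _ (hcm _ h2) (hcm _ h3) (hcm _ h4) hsq
          (dg_sqs t ht)
  refine ⟨PresentedGroup.toGroup hl, fun e => ?_⟩
  have : PresentedGroup.toGroup hl (gl e) = v e := PresentedGroup.toGroup.of hl
  rw [this, hv]
  simp only [dg]
  split_ifs
  · rw [zpow_zero, mul_one]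
  · rw [zpow_one]

end Pool.Agent.W585.RA
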